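import Pool.Agent.Lib.MP_28292c_pr.N43.Block
import Pool.Agent.Lib.MP_28292c_pr.N43.Edge
import Pool.Agent.Lib.MP_28292c_pr.N43.Centre
import Pool.Agent.Lib.MP_28292c_pr.N43.Fact
import Pool.Agent.Lib.MP_28292c_pr.N43.Meas
import Pool.Agent.Lib.MP_28292c_pr.N43.Perc
import Pool.Agent.Lib.MP_28292c_pr.N43.Main

/-!
# The relaxation time of `α`-asynchronous rule 150 on a ring is exponential for `α` near 1

Paper proof: `Pool/Agent/Lib/MP_28292c_pr/N43/Paper.md`.
-/

open MeasureTheory
open scoped ENNReal

namespace Pool.Agent.Results.MP_28292c_pr.ExpNearOne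

/-- configurations on the ring `ℤ/n` -/
abbrev Config (n : ℕ) := ZMod n → Bool

/-- one step: the cells `i` with `D i = true` take the rule 150 value computed from `x`, all the
other cells keep their value -/
def step (n : ℕ) (D x : Config n) : Config n :=
  fun i => if D i then xor (xor (x (i - 1)) (x i)) (x (i + 1)) else x i

/-- the configuration at time `t`, started from `x`, when the cells updated at the step from `s`
to `s + 1` are the cells `i` with `w (s, i) = true` -/
def orbit (n : ℕ) (w : ℕ × ZMod n → Bool) (x : Config n) : ℕ → Config n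
  | 0 => x
  | t + 1 => step n (fun i => w (t, i)) (orbit n w x t)

/-- fixed points of rule 150 -/
def IsFixed (n : ℕ) (x : Config n) : Prop :=
  ∀ i, xor (xor (x (i - 1)) (x i)) (x (i + 1)) = x i

/-- the update bits `w (t, i)` are independent, each `true` with probability `α` -/
noncomputable def updateLaw (α : unitInterval) (n : ℕ) : Measure (ℕ × ZMod n → Bool) :=
  Measure.infinitePi (fun _ => ProbabilityTheory.bernoulliMeasure true false α)

/-- first time at which the configuration is a fixed point (`∞` if there is none) -/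
noncomputable def hitTime (n : ℕ) (x : Config n) (w : ℕ × ZMod n → Bool) : ℝ≥0∞ :=
  ⨅ (t : ℕ) (_ : IsFixed n (orbit n w x t)), (t : ℝ≥0∞)

/-- relaxation time: the largest expected hitting time over all initial configurations -/
noncomputable def relaxTime (α : unitInterval) (n : ℕ) : ℝ≥0∞ :=
  ⨆ x : Config n, ∫⁻ w, hitTime n x w ∂(updateLaw α n)

lemma orbit_eq (n : ℕ) (w : ℕ × ZMod n → Bool) (x : Config n) (t : ℕ) :
    orbit n w x t = R150.traj n (fun s i => w (s, i)) x t := by
  induction t with
  | zero => rfl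
  | succ t ih =>
    show step n (fun i => w (t, i)) (orbit n w x t) = R150.step n _ (R150.traj n _ x t)
    rw [ih]
    rfl

lemma relaxTime_eq (α : unitInterval) (n : ℕ) : relaxTime α n = R150.relax α n := by
  unfold relaxTime R150.relax
  congr 1
  funext x
  have h : hitTime n x = R150.tau n x := by
    funext w
    unfold hitTime R150.tau
    congr 1
    funext t
    rw [orbit_eq]
    rfl
  rw [h]
  rfl

/-- **Theorem.** There is `α₀ < 1` such that for every `α ∈ (α₀, 1)` the relaxation time of
`α`-asynchronous rule 150 on `ℤ/n` grows at least exponentially in `n`. -/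
theorem result : ∃ α₀ : ℝ, α₀ < 1 ∧ ∀ α : unitInterval, α₀ < (α : ℝ) → (α : ℝ) < 1 →
    ∃ c : ℝ, 1 < c ∧ ∀ᶠ n : ℕ in Filter.atTop, ENNReal.ofReal (c ^ n) ≤ relaxTime α n := by
  obtain ⟨α₀, h0, h⟩ := R150.MainH52.main (R150.block R150.edge_thm R150.CentreH52.centre)
    R150.FactH52.fact R150.perc R150.MeasH52.meas
  refine ⟨α₀, h0, fun α h1 h2 => ?_⟩
  obtain ⟨c, hc, N, hN⟩ := h α h1 h2
  refine ⟨c, hc, ?_⟩
  filter_upwards [Filter.eventually_ge_atTop N] with n hn
  rw [relaxTime_eq]
  exact hN n hn

end Pool.Agent.Results.MP_28292c_pr.ExpNearOne
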